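import Pool.Agent.H18VS.CapSet

set_option autoImplicit false

/-!
# PF36/Count: the number of monomials of low degree

PROOF. `∑ a, exp (w (k - tdeg a)) = (exp w + 1 + exp (-w)) ^ k` (`Fintype.sum_pow`), and
`exp w + 1 + exp (-w) = 4 (cosh (w/2))^2 - 1 ≤ 4 exp (w^2/4) - 1 ≤ 3 exp (w^2/3)`
(`Real.cosh_le_exp_half_sq` and `4 x^3 ≤ 3 x^4 + 1`). `w = h/(2k)`, `s = h/3`: `-w s + k w^2/3 =
-h^2/(12 k)`.
-/

namespace Pool.PF36

open Finset Pool.Agent.H18VS

theorem count_mgf (w : ℝ) : Real.exp w + 1 + Real.exp (-w) ≤ 3 * Real.exp (w ^ 2 / 3) := by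
  have h1 := Real.cosh_le_exp_half_sq (w / 2)
  have h2 : Real.exp w + 1 + Real.exp (-w) = 4 * Real.cosh (w / 2) ^ 2 - 1 := by
    have e1 : Real.exp w + Real.exp (-w) = 2 * Real.cosh w := by
      rw [Real.cosh_eq]
      ring
    have e2 : Real.cosh w = 2 * Real.cosh (w / 2) ^ 2 - 1 := by
      have e3 : w = 2 * (w / 2) := by ring
      conv_lhs => rw [e3]
      rw [Real.cosh_two_mul, Real.sinh_sq]
      ring
    linarith
  have hc : 0 ≤ Real.cosh (w / 2) := (Real.cosh_pos _).le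
  have h3 : Real.cosh (w / 2) ^ 2 ≤ Real.exp ((w / 2) ^ 2 / 2) ^ 2 := pow_le_pow_left₀ hc h1 2
  set x : ℝ := Real.exp (w ^ 2 / 12) with hx
  have hx0 : 0 < x := Real.exp_pos _
  have e4 : Real.exp ((w / 2) ^ 2 / 2) ^ 2 = x ^ 3 := by
    rw [hx, ← Real.exp_nat_mul, ← Real.exp_nat_mul]
    congr 1
    push_cast
    ring
  have e5 : Real.exp (w ^ 2 / 3) = x ^ 4 := by
    rw [hx, ← Real.exp_nat_mul]
    congr 1
    push_cast
    ring
  rw [h2, e5]
  rw [e4] at h3
  have h6 : 0 ≤ (x - 1) ^ 2 * (3 * x ^ 2 + 2 * x + 1) := by positivity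
  nlinarith

theorem count (k h : ℕ) (hk : 0 < k) :
    ((univ.filter fun a : Fin k → Fin 3 => 3 * tdeg a + h ≤ 3 * k).card : ℝ) ≤
      3 ^ k * Real.exp (-((h : ℝ) ^ 2 / (12 * k))) := by
  have hkR : (0 : ℝ) < k := by exact_mod_cast hk
  set w : ℝ := h / (2 * k) with hw
  have hw0 : 0 ≤ w := by positivity
  have hsum : ∑ a : Fin k → Fin 3, Real.exp (w * ((k : ℝ) - tdeg a)) =
      (Real.exp w + 1 + Real.exp (-w)) ^ k := by
    have e1 : Real.exp w + 1 + Real.exp (-w) = ∑ c : Fin 3, Real.exp (w * (1 - (c.val : ℝ))) := by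
      rw [Fin.sum_univ_three]
      simp only [Fin.val_zero, Fin.val_one, Fin.val_two, Nat.cast_zero, Nat.cast_one,
        Nat.cast_ofNat, sub_zero, mul_one, sub_self, mul_zero, Real.exp_zero]
      congr 2
      ring
    rw [e1, Fintype.sum_pow]
    apply Finset.sum_congr rfl
    intro a _
    rw [← Real.exp_sum]
    congr 1
    rw [← Finset.mul_sum, Finset.sum_sub_distrib]
    congr 1
    rw [Finset.sum_const, Finset.card_univ, Fintype.card_fin, nsmul_eq_mul, mul_one]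
    congr 1
    unfold tdeg
    push_cast
    rfl
  have hlow : ((univ.filter fun a : Fin k → Fin 3 => 3 * tdeg a + h ≤ 3 * k).card : ℝ) *
      Real.exp (w * (h / 3)) ≤ ∑ a : Fin k → Fin 3, Real.exp (w * ((k : ℝ) - tdeg a)) := by
    calc ((univ.filter fun a : Fin k → Fin 3 => 3 * tdeg a + h ≤ 3 * k).card : ℝ) *
        Real.exp (w * (h / 3))
        = ∑ a ∈ univ.filter fun a : Fin k → Fin 3 => 3 * tdeg a + h ≤ 3 * k,
          Real.exp (w * (h / 3)) := by rw [Finset.sum_const, nsmul_eq_mul]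
      _ ≤ ∑ a ∈ univ.filter fun a : Fin k → Fin 3 => 3 * tdeg a + h ≤ 3 * k,
          Real.exp (w * ((k : ℝ) - tdeg a)) := by
          apply Finset.sum_le_sum
          intro a ha
          rw [Finset.mem_filter] at ha
          apply Real.exp_le_exp.2
          apply mul_le_mul_of_nonneg_left _ hw0
          have h1 : (3 * (tdeg a : ℝ) + h) ≤ 3 * k := by exact_mod_cast ha.2
          linarith
      _ ≤ _ := Finset.sum_le_sum_of_subset_of_nonneg (Finset.filter_subset _ _)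
          fun a _ _ => (Real.exp_pos _).le
  have hup : (Real.exp w + 1 + Real.exp (-w)) ^ k ≤ 3 ^ k * Real.exp (k * (w ^ 2 / 3)) := by
    calc (Real.exp w + 1 + Real.exp (-w)) ^ k ≤ (3 * Real.exp (w ^ 2 / 3)) ^ k :=
          pow_le_pow_left₀ (by positivity) (count_mgf w) k
      _ = 3 ^ k * Real.exp (k * (w ^ 2 / 3)) := by rw [mul_pow, Real.exp_nat_mul]
  have h1 : ((univ.filter fun a : Fin k → Fin 3 => 3 * tdeg a + h ≤ 3 * k).card : ℝ) *
      Real.exp (w * (h / 3)) ≤ 3 ^ k * Real.exp (k * (w ^ 2 / 3)) := by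
    rw [hsum] at hlow
    exact hlow.trans hup
  have h2 : Real.exp (-((h : ℝ) ^ 2 / (12 * k))) * Real.exp (w * (h / 3)) =
      Real.exp (k * (w ^ 2 / 3)) := by
    rw [← Real.exp_add]
    congr 1
    rw [hw]
    field_simp
    ring
  have h3 : 0 < Real.exp (w * (h / 3)) := Real.exp_pos _
  rw [← h2, ← mul_assoc] at h1
  exact le_of_mul_le_mul_right h1 h3

end Pool.PF36
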