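import Pool.Agent.H18VS.CapSet

set_option autoImplicit false

/-!
# PF36/Poly: the tensor of the subset sums has low degree

PROOF. `F = ∏_(l<k) (1 - (x_l+y_l+z_l)^2) (1 - (y_l - x_l - L(t)_l)^2)` in `MvPolynomial (Fin k × Fin 3 ⊕ Fin n) (ZMod 3)`,
total degree at most `4k`; the alternating sum over `t ∈ {0,1}^n` kills every monomial which does not contain all
`t_j`; `x ^ e = x ^ (red e)`, `red e ∈ {0,1,2}`.
-/

namespace Pool.PF36

open Finset Pool.Agent.H18VS

/-- the vector of `{0,1}^n` given by a set -/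
def ind {n : ℕ} (S : Finset (Fin n)) : Fin n → ZMod 3 := fun j => if j ∈ S then 1 else 0

/-- the tensor -/
def TT {n k : ℕ} (L : (Fin n → ZMod 3) →ₗ[ZMod 3] (Fin k → ZMod 3)) (x y z : Fin k → ZMod 3) :
    ZMod 3 :=
  ∑ S : Finset (Fin n), (-1) ^ S.card * (if x + y + z = 0 ∧ y - x = L (ind S) then 1 else 0)

/-- the exponent reduced to `{0,1,2}` -/
def red (e : ℕ) : Fin 3 := if e = 0 then 0 else if e % 2 = 1 then 1 else 2

theorem red_le (e : ℕ) : (red e : ℕ) ≤ e := by
  unfold red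
  split_ifs with h1 h2
  · simp
  · show 1 ≤ e
    omega
  · show 2 ≤ e
    omega

theorem pow_red (x : ZMod 3) (e : ℕ) : x ^ (red e : ℕ) = x ^ e := by
  have hx : x = 0 ∨ x = 1 ∨ x = -1 := by
    revert x; decide
  unfold red
  split_ifs with h1 h2
  · subst h1; rfl
  · have ho : Odd e := Nat.odd_iff.2 h2
    rcases hx with rfl | rfl | rfl
    · show (0 : ZMod 3) ^ 1 = 0 ^ e
      rw [zero_pow h1, pow_one]
    · simp
    · show (-1 : ZMod 3) ^ 1 = (-1) ^ e
      rw [ho.neg_one_pow, pow_one]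
  · have he : Even e := Nat.even_iff.2 (by omega)
    rcases hx with rfl | rfl | rfl
    · show (0 : ZMod 3) ^ 2 = 0 ^ e
      rw [zero_pow h1]; rfl
    · simp
    · show (-1 : ZMod 3) ^ 2 = (-1) ^ e
      rw [he.neg_one_pow]; rfl

/-- the alternating sum over the cube -/
theorem alt_sum {n : ℕ} (e : Fin n → ℕ) (j : Fin n) (hj : e j = 0) :
    ∑ S : Finset (Fin n), (-1 : ZMod 3) ^ S.card * ∏ i, ind S i ^ e i = 0 := by
  classical
  have h1 : ∏ i : Fin n, ((-1 : ZMod 3) + 0 ^ e i) = 0 :=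
    Finset.prod_eq_zero (Finset.mem_univ j) (by rw [hj, pow_zero]; ring)
  rw [Finset.prod_add, Finset.powerset_univ] at h1
  rw [← h1]
  refine Finset.sum_congr rfl fun S _ => ?_
  rw [Finset.prod_const]
  congr 1
  rw [← Finset.prod_mul_prod_compl S, Finset.compl_eq_univ_sdiff]
  have h2 : ∏ i ∈ S, ind S i ^ e i = 1 := by
    apply Finset.prod_eq_one
    intro i hi
    simp [ind, hi]
  rw [h2, one_mul]
  refine Finset.prod_congr rfl fun i hi => ?_
  have : i ∉ S := (Finset.mem_sdiff.1 hi).2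
  simp [ind, this]

open MvPolynomial in
/-- the polynomial -/
noncomputable def FF {n k : ℕ} (L : (Fin n → ZMod 3) →ₗ[ZMod 3] (Fin k → ZMod 3)) :
    MvPolynomial (Fin k × Fin 3 ⊕ Fin n) (ZMod 3) :=
  ∏ l : Fin k, ((1 - (X (Sum.inl (l, 0)) + X (Sum.inl (l, 1)) + X (Sum.inl (l, 2))) ^ 2) *
    (1 - (X (Sum.inl (l, 1)) - X (Sum.inl (l, 0)) -
      ∑ j : Fin n, C (L (Pi.single j 1) l) * X (Sum.inr j)) ^ 2))

open MvPolynomial in
theorem FF_deg {n k : ℕ} (L : (Fin n → ZMod 3) →ₗ[ZMod 3] (Fin k → ZMod 3)) :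
    (FF L).totalDegree ≤ 4 * k := by
  have hX : ∀ i : Fin k × Fin 3 ⊕ Fin n, (X i : MvPolynomial _ (ZMod 3)).totalDegree ≤ 1 :=
    fun i => (totalDegree_X i).le
  have hC : ∀ l : Fin k, (∑ j : Fin n, C (L (Pi.single j 1) l) * X (Sum.inr j) :
      MvPolynomial (Fin k × Fin 3 ⊕ Fin n) (ZMod 3)).totalDegree ≤ 1 := by
    intro l
    refine totalDegree_finsetSum_le fun j _ => ?_
    refine (totalDegree_mul _ _).trans ?_
    rw [totalDegree_C, zero_add]
    exact hX _
  have hsq : ∀ p : MvPolynomial (Fin k × Fin 3 ⊕ Fin n) (ZMod 3), p.totalDegree ≤ 1 →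
      (1 - p ^ 2).totalDegree ≤ 2 := by
    intro p hp
    refine (totalDegree_sub _ _).trans ?_
    rw [totalDegree_one]
    refine max_le (by norm_num) ((totalDegree_pow _ _).trans ?_)
    omega
  unfold FF
  refine (totalDegree_finsetProd _ _).trans ?_
  calc ∑ l : Fin k, ((1 - (X (Sum.inl (l, 0)) + X (Sum.inl (l, 1)) + X (Sum.inl (l, 2))) ^ 2) *
        (1 - (X (Sum.inl (l, 1)) - X (Sum.inl (l, 0)) -
        ∑ j : Fin n, C (L (Pi.single j 1) l) * X (Sum.inr j)) ^ 2) :
        MvPolynomial (Fin k × Fin 3 ⊕ Fin n) (ZMod 3)).totalDegree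
      ≤ ∑ _l : Fin k, 4 := by
        refine Finset.sum_le_sum fun l _ => ?_
        refine (totalDegree_mul _ _).trans ?_
        have h1 := hsq (X (Sum.inl (l, 0)) + X (Sum.inl (l, 1)) + X (Sum.inl (l, 2))) (by
          refine (totalDegree_add _ _).trans (max_le ?_ (hX _))
          exact (totalDegree_add _ _).trans (max_le (hX _) (hX _)))
        have h2 := hsq (X (Sum.inl (l, 1)) - X (Sum.inl (l, 0)) -
          ∑ j : Fin n, C (L (Pi.single j 1) l) * X (Sum.inr j)) (by
          refine (totalDegree_sub _ _).trans (max_le ?_ (hC l))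
          exact (totalDegree_sub _ _).trans (max_le (hX _) (hX _)))
        omega
    _ = 4 * k := by simp [mul_comm]

/-- the point -/
def pt {n k : ℕ} (x y z : Fin k → ZMod 3) (t : Fin n → ZMod 3) : Fin k × Fin 3 ⊕ Fin n → ZMod 3 :=
  Sum.elim (fun q => ![x q.1, y q.1, z q.1] q.2) t

theorem one_sub_sq (a : ZMod 3) : 1 - a ^ 2 = if a = 0 then 1 else 0 := by
  revert a; decide

open MvPolynomial in
theorem FF_eval {n k : ℕ} (L : (Fin n → ZMod 3) →ₗ[ZMod 3] (Fin k → ZMod 3))
    (x y z : Fin k → ZMod 3) (t : Fin n → ZMod 3) :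
    eval (pt x y z t) (FF L) = if x + y + z = 0 ∧ y - x = L t then 1 else 0 := by
  have hL : ∀ l : Fin k, ∑ j : Fin n, L (Pi.single j 1) l * t j = L t l := by
    intro l
    conv_rhs => rw [LinearMap.pi_apply_eq_sum_univ L t]
    rw [Finset.sum_apply]
    refine Finset.sum_congr rfl fun j _ => ?_
    have h1 : (Pi.single j 1 : Fin n → ZMod 3) = fun i => if j = i then 1 else 0 := by
      ext i
      rw [Pi.single_apply]
      exact if_congr eq_comm rfl rfl
    rw [h1, Pi.smul_apply, smul_eq_mul, mul_comm]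
  have h1 : eval (pt x y z t) (FF L) = ∏ l : Fin k,
      ((if x l + y l + z l = 0 then (1 : ZMod 3) else 0) *
        (if y l - x l - L t l = 0 then (1 : ZMod 3) else 0)) := by
    unfold FF
    rw [map_prod]
    refine Finset.prod_congr rfl fun l _ => ?_
    rw [← one_sub_sq, ← one_sub_sq, ← hL]
    simp only [map_mul, map_sub, map_one, map_pow, map_add, map_sum, eval_X, eval_C]
    simp [pt]
  rw [h1, Finset.prod_mul_distrib, Finset.prod_ite_zero, Finset.prod_ite_zero]
  have h2 : (∀ l ∈ (univ : Finset (Fin k)), x l + y l + z l = 0) ↔ x + y + z = 0 := by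
    simp [funext_iff]
  have h3 : (∀ l ∈ (univ : Finset (Fin k)), y l - x l - L t l = 0) ↔ y - x = L t := by
    simp [funext_iff, sub_eq_zero]
  simp only [h2, h3, Finset.prod_const_one]
  by_cases a : x + y + z = 0 <;> by_cases b : y - x = L t <;> simp [a, b]

open MvPolynomial in
theorem expand {n k : ℕ} (L : (Fin n → ZMod 3) →ₗ[ZMod 3] (Fin k → ZMod 3)) :
    ∃ (ι : Type) (_ : Fintype ι) (c : ι → ZMod 3) (α β γ : ι → Fin k → Fin 3),
      (∀ p, c p ≠ 0 → tdeg (α p) + tdeg (β p) + tdeg (γ p) + n ≤ 4 * k) ∧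
      ∀ x y z, TT L x y z = ∑ p, c p * (mon (α p) x * mon (β p) y * mon (γ p) z) := by
  classical
  refine ⟨(FF L).support, inferInstance, fun p => (FF L).coeff p.1 *
      ∑ S : Finset (Fin n), (-1 : ZMod 3) ^ S.card * ∏ i, ind S i ^ p.1 (Sum.inr i),
    fun p l => red (p.1 (Sum.inl (l, 0))), fun p l => red (p.1 (Sum.inl (l, 1))),
    fun p l => red (p.1 (Sum.inl (l, 2))), ?_, ?_⟩
  · intro p hp
    have h1 : ∀ j : Fin n, p.1 (Sum.inr j) ≠ 0 := by
      intro j hj
      apply hp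
      show _ * _ = _
      rw [alt_sum (fun i => p.1 (Sum.inr i)) j hj, mul_zero]
    have h2 : (p.1.sum fun _ e => e) ≤ 4 * k := (le_totalDegree p.2).trans (FF_deg L)
    rw [Finsupp.sum_fintype _ _ (fun _ => rfl), Fintype.sum_sum_type, Fintype.sum_prod_type] at h2
    have h3 : n ≤ ∑ j : Fin n, p.1 (Sum.inr j) := by
      calc n = ∑ _j : Fin n, 1 := by simp
        _ ≤ _ := Finset.sum_le_sum fun j _ => Nat.one_le_iff_ne_zero.2 (h1 j)
    have h4 : tdeg (fun l => red (p.1 (Sum.inl (l, 0)))) + tdeg (fun l => red (p.1 (Sum.inl (l, 1)))) +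
        tdeg (fun l => red (p.1 (Sum.inl (l, 2)))) ≤
        ∑ l : Fin k, ∑ q : Fin 3, p.1 (Sum.inl (l, q)) := by
      unfold tdeg
      rw [← Finset.sum_add_distrib, ← Finset.sum_add_distrib]
      refine Finset.sum_le_sum fun l _ => ?_
      rw [Fin.sum_univ_three]
      have a := red_le (p.1 (Sum.inl (l, 0)))
      have b := red_le (p.1 (Sum.inl (l, 1)))
      have c := red_le (p.1 (Sum.inl (l, 2)))
      beta_reduce
      exact Nat.add_le_add (Nat.add_le_add a b) c
    beta_reduce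
    omega
  · intro x y z
    have h1 : TT L x y z = ∑ S : Finset (Fin n), (-1 : ZMod 3) ^ S.card *
        ∑ d ∈ (FF L).support, (FF L).coeff d * ∏ i, pt x y z (ind S) i ^ d i := by
      unfold TT
      refine Finset.sum_congr rfl fun S _ => ?_
      rw [← FF_eval, eval_eq']
    rw [h1]
    simp_rw [Finset.mul_sum]
    rw [Finset.sum_comm, ← Finset.sum_coe_sort (FF L).support]
    refine Finset.sum_congr rfl fun p _ => ?_
    rw [Finset.sum_mul]
    refine Finset.sum_congr rfl fun S _ => ?_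
    rw [Fintype.prod_sum_type, Fintype.prod_prod_type]
    have h2 : ∏ l : Fin k, ∏ q : Fin 3, pt x y z (ind S) (Sum.inl (l, q)) ^ p.1 (Sum.inl (l, q)) =
        mon (fun l => red (p.1 (Sum.inl (l, 0)))) x * mon (fun l => red (p.1 (Sum.inl (l, 1)))) y *
          mon (fun l => red (p.1 (Sum.inl (l, 2)))) z := by
      unfold mon
      rw [← Finset.prod_mul_distrib, ← Finset.prod_mul_distrib]
      refine Finset.prod_congr rfl fun l _ => ?_
      rw [Fin.prod_univ_three, pow_red, pow_red, pow_red]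
      simp [pt]
    rw [h2]
    simp only [pt, Sum.elim_inr]
    ring

end Pool.PF36
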