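import Pool.Agent.PF36.Slice
import Pool.Agent.PF36.Count
import Pool.Agent.PF36.Poly

/-!
# PF36/Fib: few dense fibres
-/

set_option autoImplicit false

namespace Pool.PF36

open Finset Pool.Agent.H18VS

theorem ind_zero_or_one {n : ℕ} (S : Finset (Fin n)) (i : Fin n) : ind S i = 0 ∨ ind S i = 1 := by
  unfold ind
  split_ifs
  · exact Or.inr rfl
  · exact Or.inl rfl

theorem ind_empty {n : ℕ} : ind (∅ : Finset (Fin n)) = 0 := by
  funext i
  simp [ind]

theorem ind_eq_zero {n : ℕ} {S : Finset (Fin n)} (h : ind S = 0) : S = ∅ := by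
  rw [eq_empty_iff_forall_notMem]
  intro i hi
  have := congrFun h i
  simp [ind, hi] at this

/-- all fibres of a linear map have the same size as the one over `y`, translated -/
theorem card_fibre_add {n k : ℕ} (L : (Fin n → ZMod 3) →ₗ[ZMod 3] (Fin k → ZMod 3))
    (P : (Fin n → ZMod 3) → Prop) [DecidablePred P] (y : Fin k → ZMod 3) (d : Fin n → ZMod 3) :
    (univ.filter fun x => L x = y ∧ P (x + d)).card =
      (univ.filter fun x => L x = y + L d ∧ P x).card := by
  classical
  refine card_bij (fun x _ => x + d) ?_ ?_ ?_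
  · intro x hx
    rw [mem_filter] at hx ⊢
    exact ⟨mem_univ _, by rw [map_add, hx.2.1], hx.2.2⟩
  · intro x _ x' _ h
    exact add_right_cancel h
  · intro x hx
    rw [mem_filter] at hx
    refine ⟨x - d, ?_, by abel⟩
    rw [mem_filter]
    refine ⟨mem_univ _, by rw [map_sub, hx.2.1]; abel, ?_⟩
    rw [sub_add_cancel]
    exact hx.2.2

theorem le_of_surj {n k : ℕ} (L : (Fin n → ZMod 3) →ₗ[ZMod 3] (Fin k → ZMod 3))
    (hL : Function.Surjective L) : k ≤ n := by
  have := LinearMap.finrank_le_finrank_of_surjective hL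
  simpa using this

theorem card_fibre {n k : ℕ} (L : (Fin n → ZMod 3) →ₗ[ZMod 3] (Fin k → ZMod 3))
    (hL : Function.Surjective L) (y : Fin k → ZMod 3) :
    (univ.filter fun x => L x = y).card = 3 ^ (n - k) := by
  classical
  have hkn : k ≤ n := le_of_surj L hL
  have h1 : ∀ y', (univ.filter fun x => L x = y').card = (univ.filter fun x => L x = y).card := by
    intro y'
    obtain ⟨d, hd⟩ := hL (y' - y)
    have := card_fibre_add L (fun _ => True) y d
    simp only [and_true] at this
    rw [this, hd]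
    congr 1
    ext x
    rw [mem_filter, mem_filter, add_sub_cancel]
  have h2 : (univ : Finset (Fin n → ZMod 3)).card =
      ∑ y' : Fin k → ZMod 3, (univ.filter fun x => L x = y').card :=
    card_eq_sum_card_fiberwise (fun x _ => mem_coe.2 (mem_univ _))
  rw [sum_congr rfl fun y' _ => h1 y', sum_const, card_univ, card_univ] at h2
  simp only [Fintype.card_fun, ZMod.card, Fintype.card_fin, smul_eq_mul] at h2
  have h3 : 3 ^ n = 3 ^ k * 3 ^ (n - k) := by
    rw [← pow_add]
    congr 1
    omega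
  rw [h3] at h2
  exact (Nat.eq_of_mul_eq_mul_left (by positivity) h2).symm

/-- three dense fibres over a progression with difference `L (ind S)` force `S = ∅` -/
theorem core {n k : ℕ} (A : Finset (Fin n → ZMod 3))
    (hA : ∀ x d : Fin n → ZMod 3, (∀ i, d i = 0 ∨ d i = 1) → d ≠ 0 →
      ¬ (x ∈ A ∧ x + d ∈ A ∧ x + 2 • d ∈ A))
    (L : (Fin n → ZMod 3) →ₗ[ZMod 3] (Fin k → ZMod 3)) (hL : Function.Surjective L)
    {y : Fin k → ZMod 3} {S : Finset (Fin n)}
    (h1 : 2 * 3 ^ (n - k) < 3 * (univ.filter fun x => L x = y ∧ x ∈ A).card)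
    (h2 : 2 * 3 ^ (n - k) < 3 * (univ.filter fun x => L x = y + L (ind S) ∧ x ∈ A).card)
    (h3 : 2 * 3 ^ (n - k) < 3 * (univ.filter fun x => L x = y + L (2 • ind S) ∧ x ∈ A).card) :
    S = ∅ := by
  classical
  by_contra hS
  rw [← card_fibre_add L (fun x => x ∈ A) y (ind S)] at h2
  rw [← card_fibre_add L (fun x => x ∈ A) y (2 • ind S)] at h3
  have hF := card_fibre L hL y
  have hne : ∀ x, L x = y → ¬ (x ∈ A ∧ x + ind S ∈ A ∧ x + 2 • ind S ∈ A) := fun x _ =>
    hA x (ind S) (ind_zero_or_one S) fun h => hS (ind_eq_zero h)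
  obtain ⟨F, hFd⟩ : ∃ F : Finset (Fin n → ZMod 3), F = univ.filter fun x => L x = y := ⟨_, rfl⟩
  have hsplit : ∀ Q : (Fin n → ZMod 3) → Prop, ∀ _ : DecidablePred Q,
      (univ.filter fun x => L x = y ∧ Q x) = F.filter Q := by
    intro Q _
    rw [hFd, filter_filter]
  rw [hsplit] at h1 h2 h3
  have e1 := card_filter_add_card_filter_not (s := F) (fun x => x ∈ A)
  have e2 := card_filter_add_card_filter_not (s := F) (fun x => x + ind S ∈ A)
  have e3 := card_filter_add_card_filter_not (s := F) (fun x => x + 2 • ind S ∈ A)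
  have hsub : F ⊆ (F.filter fun x => ¬ x ∈ A) ∪ ((F.filter fun x => ¬ x + ind S ∈ A) ∪
      (F.filter fun x => ¬ x + 2 • ind S ∈ A)) := by
    intro x hx
    have hx' : L x = y := by
      rw [hFd, mem_filter] at hx
      exact hx.2
    have := hne x hx'
    simp only [mem_union, mem_filter]
    tauto
  have e4 := card_le_card hsub
  have e5 := card_union_le (F.filter fun x => ¬ x ∈ A) ((F.filter fun x => ¬ x + ind S ∈ A) ∪
      (F.filter fun x => ¬ x + 2 • ind S ∈ A))
  have e6 := card_union_le (F.filter fun x => ¬ x + ind S ∈ A)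
      (F.filter fun x => ¬ x + 2 • ind S ∈ A)
  rw [← hFd] at hF
  have h1' : 2 * 3 ^ (n - k) < 3 * (F.filter fun x => x ∈ A).card := h1
  have h2' : 2 * 3 ^ (n - k) < 3 * (F.filter fun x => x + ind S ∈ A).card := h2
  have h3' : 2 * 3 ^ (n - k) < 3 * (F.filter fun x => x + 2 • ind S ∈ A).card := h3
  clear h1 h2 h3
  omega

/-- the dense fibres -/
def Dn {n k : ℕ} (A : Finset (Fin n → ZMod 3))
    (L : (Fin n → ZMod 3) →ₗ[ZMod 3] (Fin k → ZMod 3)) : Finset (Fin k → ZMod 3) :=
  univ.filter fun y => 2 * 3 ^ (n - k) < 3 * (univ.filter fun x => L x = y ∧ x ∈ A).card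

theorem TT_zero {n k : ℕ} (A : Finset (Fin n → ZMod 3))
    (hA : ∀ x d : Fin n → ZMod 3, (∀ i, d i = 0 ∨ d i = 1) → d ≠ 0 →
      ¬ (x ∈ A ∧ x + d ∈ A ∧ x + 2 • d ∈ A))
    (L : (Fin n → ZMod 3) →ₗ[ZMod 3] (Fin k → ZMod 3)) (hL : Function.Surjective L)
    {x y z : Fin k → ZMod 3} (hx : x ∈ Dn A L) (hy : y ∈ Dn A L) (hz : z ∈ Dn A L)
    {S : Finset (Fin n)} (h : x + y + z = 0 ∧ y - x = L (ind S)) : S = ∅ := by
  have hy' : y = x + L (ind S) := by rw [← h.2]; abel
  have hz' : z = x + L (2 • ind S) := by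
    have e3 : ∀ v : Fin k → ZMod 3, (3 : ℕ) • v = 0 := by
      intro v
      funext i
      simp only [Pi.smul_apply, Pi.zero_apply]
      generalize v i = a
      revert a
      decide
    rw [map_nsmul, ← h.2]
    have e4 : z = - x - y := by
      rw [eq_sub_iff_add_eq, eq_neg_iff_add_eq_zero, ← h.1]
      abel
    have e5 := e3 y
    rw [e4, ← sub_eq_zero]
    calc -x - y - (x + 2 • (y - x)) = -((3 : ℕ) • y) := by
          simp only [succ_nsmul, zero_nsmul]
          abel
      _ = 0 := by rw [e5, neg_zero]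
  rw [Dn, mem_filter] at hx hy hz
  rw [hy'] at hy
  rw [hz'] at hz
  exact core A hA L hL hx.2 hy.2 hz.2

theorem fibres_aux {n k : ℕ} (A : Finset (Fin n → ZMod 3))
    (hA : ∀ x d : Fin n → ZMod 3, (∀ i, d i = 0 ∨ d i = 1) → d ≠ 0 →
      ¬ (x ∈ A ∧ x + d ∈ A ∧ x + 2 • d ∈ A))
    (L : (Fin n → ZMod 3) →ₗ[ZMod 3] (Fin k → ZMod 3)) (hL : Function.Surjective L) (hk : 0 < k) :
    ((Dn A L).card : ℝ) ≤ 3 * (3 ^ k * Real.exp (-(((n - k : ℕ) : ℝ) ^ 2 / (12 * k)))) := by
  classical
  obtain ⟨ι, hι, c, α, β, γ, hdeg, hexp⟩ := expand L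
  have h0 : ∀ x ∈ Dn A L, ∀ y ∈ Dn A L, ∀ z ∈ Dn A L, ¬ (x = y ∧ y = z) → TT L x y z = 0 := by
    intro x hx y hy z hz hxyz
    unfold TT
    refine sum_eq_zero fun S _ => ?_
    by_cases h : x + y + z = 0 ∧ y - x = L (ind S)
    · exfalso
      have hS := TT_zero A hA L hL hx hy hz h
      rw [hS, ind_empty, map_zero] at h
      have hyx : y = x := sub_eq_zero.1 h.2
      apply hxyz
      refine ⟨hyx.symm, ?_⟩
      have h1 := h.1
      rw [hyx] at h1 ⊢
      funext i
      have h2 := congrFun h1 i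
      simp only [Pi.add_apply, Pi.zero_apply] at h2
      revert h2
      generalize x i = a
      generalize z i = b
      revert a b
      decide
    · rw [if_neg h, mul_zero]
  have h1 : ∀ x ∈ Dn A L, TT L x x x = 1 := by
    intro x hx
    unfold TT
    rw [sum_eq_single_of_mem ∅ (mem_univ _)]
    · have e : x + x + x = 0 ∧ x - x = L (ind (∅ : Finset (Fin n))) := by
        refine ⟨?_, by rw [ind_empty, map_zero, sub_self]⟩
        funext i
        simp only [Pi.add_apply, Pi.zero_apply]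
        generalize x i = a
        revert a
        decide
      rw [if_pos e]
      simp
    · intro S _ hS
      rw [if_neg, mul_zero]
      intro h
      exact hS (TT_zero A hA L hL hx hx hx h)
  have hkr : (0 : ℝ) ≤ 3 * (3 ^ k * Real.exp (-(((n - k : ℕ) : ℝ) ^ 2 / (12 * k)))) := by
    positivity
  by_cases hn : n ≤ 4 * k
  · have hs := slice (N := 4 * k - n) c α β γ (fun p hp => by have := hdeg p hp; omega) (Dn A L)
      (fun x hx y hy z hz h => by rw [← hexp]; exact h0 x hx y hy z hz h)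
      (fun x hx => by rw [← hexp, h1 x hx]; exact one_ne_zero)
    have hc := count k (n - k) hk
    have hle : (univ.filter fun a : Fin k → Fin 3 => 3 * tdeg a ≤ 4 * k - n).card ≤
        (univ.filter fun a : Fin k → Fin 3 => 3 * tdeg a + (n - k) ≤ 3 * k).card := by
      refine card_le_card fun a ha => ?_
      rw [mem_filter] at ha ⊢
      refine ⟨mem_univ _, ?_⟩
      have := ha.2
      have := le_of_surj L hL
      omega
    calc ((Dn A L).card : ℝ)
        ≤ ((3 * (univ.filter fun a : Fin k → Fin 3 => 3 * tdeg a ≤ 4 * k - n).card : ℕ) : ℝ) := by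
          exact_mod_cast hs
      _ ≤ 3 * ((univ.filter fun a : Fin k → Fin 3 => 3 * tdeg a + (n - k) ≤ 3 * k).card : ℝ) := by
          push_cast
          exact mul_le_mul_of_nonneg_left (by exact_mod_cast hle) (by norm_num)
      _ ≤ _ := mul_le_mul_of_nonneg_left hc (by norm_num)
  · have hempty : Dn A L = ∅ := by
      rw [eq_empty_iff_forall_notMem]
      intro x hx
      have h2 := h1 x hx
      rw [hexp, sum_eq_zero] at h2
      · exact zero_ne_one h2
      · intro p _
        by_cases hp : c p = 0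
        · rw [hp, zero_mul]
        · have := hdeg p hp
          omega
    rw [hempty, card_empty]
    simpa using hkr

/-- A free set fills more than two thirds of at most `3 exp (-(n-k)^2/(12k)) 3^k` fibres of a surjective
linear map to `(ZMod 3)^k`. -/
theorem fibres {n k : ℕ} (A : Finset (Fin n → ZMod 3))
    (hA : ∀ x d : Fin n → ZMod 3, d ≠ 0 → (∀ i, d i = 0 ∨ d i = 1) →
      ¬ (x ∈ A ∧ x + d ∈ A ∧ x + 2 • d ∈ A))
    (L : (Fin n → ZMod 3) →ₗ[ZMod 3] (Fin k → ZMod 3)) (hL : Function.Surjective L) :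
    ((univ.filter fun y : Fin k → ZMod 3 =>
      2 * 3 ^ (n - k) < 3 * (A.filter fun x => L x = y).card).card : ℝ) ≤
      3 * (3 ^ k * Real.exp (-(((n - k : ℕ) : ℝ) ^ 2 / (12 * k)))) := by
  classical
  rcases Nat.eq_zero_or_pos k with hk | hk
  · subst hk
    have h1 : (univ.filter fun y : Fin 0 → ZMod 3 =>
        2 * 3 ^ (n - 0) < 3 * (A.filter fun x => L x = y).card).card ≤ 1 := by
      refine (card_le_univ _).trans ?_
      simp
    have h2 : ((univ.filter fun y : Fin 0 → ZMod 3 =>
        2 * 3 ^ (n - 0) < 3 * (A.filter fun x => L x = y).card).card : ℝ) ≤ 1 := by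
      exact_mod_cast h1
    refine h2.trans ?_
    simp
  · refine le_trans (le_of_eq ?_) (fibres_aux A (fun x d h h0 => hA x d h0 h) L hL hk)
    congr 1
    unfold Dn
    congr 1
    ext y
    rw [mem_filter, mem_filter]
    have e : (univ.filter fun x => L x = y ∧ x ∈ A) = A.filter fun x => L x = y := by
      ext x
      simp [and_comm]
    rw [e]

end Pool.PF36
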