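import Pool.Agent.H18VS.CapSet

set_option autoImplicit false

/-!
# PF36/SliceS82: the slice rank bound (proof)
-/

namespace Pool.PF36.S82

open Finset Pool.Agent.H18VS

theorem slice {k N : ℕ} {ι : Type} [Fintype ι] (c : ι → ZMod 3) (α β γ : ι → Fin k → Fin 3)
    (hdeg : ∀ p, c p ≠ 0 → tdeg (α p) + tdeg (β p) + tdeg (γ p) ≤ N)
    (B : Finset (Fin k → ZMod 3))
    (h0 : ∀ x ∈ B, ∀ y ∈ B, ∀ z ∈ B, ¬ (x = y ∧ y = z) →
      ∑ p, c p * (mon (α p) x * mon (β p) y * mon (γ p) z) = 0)
    (h1 : ∀ x ∈ B, ∑ p, c p * (mon (α p) x * mon (β p) x * mon (γ p) x) ≠ 0) :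
    B.card ≤ 3 * (univ.filter fun a : Fin k → Fin 3 => 3 * tdeg a ≤ N).card := by
  classical
  let Lw := {a : Fin k → Fin 3 // 3 * tdeg a ≤ N}
  have hcL : Fintype.card Lw = (univ.filter fun a : Fin k → Fin 3 => 3 * tdeg a ≤ N).card :=
    Fintype.card_subtype _
  rw [← hcL]
  -- orthogonality to low monomials
  let g : (B → ZMod 3) →ₗ[ZMod 3] (Lw → ZMod 3) :=
    { toFun := fun u a => ∑ z : B, u z * mon a.1 (z : Fin k → ZMod 3)
      map_add' := by
        intro a b; ext t; simp [add_mul, Finset.sum_add_distrib]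
      map_smul' := by
        intro a b; ext t; simp [Finset.mul_sum, mul_assoc] }
  obtain ⟨u, hu, hus⟩ := exists_large_support (LinearMap.ker g)
  have hdim := finrank_ker_ge g
  have hug : ∀ a : Fin k → Fin 3, 3 * tdeg a ≤ N →
      ∑ z : B, u z * mon a (z : Fin k → ZMod 3) = 0 := by
    intro a ha
    exact congrFun (LinearMap.mem_ker.1 hu) ⟨a, ha⟩
  let c' : ι → ZMod 3 := fun p => c p * ∑ z : B, u z * mon (γ p) (z : Fin k → ZMod 3)
  let lo1 : ι → Prop := fun p => 3 * tdeg (α p) ≤ N
  let lo2 : ι → Prop := fun p => 3 * tdeg (β p) ≤ N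
  have hc0 : ∀ p, ¬ lo1 p → ¬ lo2 p → c' p = 0 := by
    intro p h1 h2
    by_cases h3 : 3 * tdeg (γ p) ≤ N
    · simp only [c']
      rw [hug _ h3, mul_zero]
    · by_cases h4 : c p = 0
      · simp [c', h4]
      · exfalso
        have h6 := hdeg p h4
        simp only [lo1, lo2, not_le] at h1 h2 h3
        omega
  let d : B → ZMod 3 := fun x => u x *
    ∑ p, c p * (mon (α p) (x : Fin k → ZMod 3) * mon (β p) (x : Fin k → ZMod 3) *
      mon (γ p) (x : Fin k → ZMod 3))
  have hd : ∀ x : B, d x ≠ 0 ↔ u x ≠ 0 := by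
    intro x
    have h2 := h1 x x.2
    constructor
    · intro h hx
      exact h (by simp only [d]; rw [hx, zero_mul])
    · intro h
      exact mul_ne_zero h h2
  -- the diagonal matrix
  have hdiag : ∀ x y : B, (Matrix.diagonal d : Matrix B B (ZMod 3)) x y =
      ∑ p, c' p * (mon (α p) (x : Fin k → ZMod 3) * mon (β p) (y : Fin k → ZMod 3)) := by
    intro x y
    have h1 : ∑ z : B, u z * (∑ p, c p * (mon (α p) (x : Fin k → ZMod 3) *
          mon (β p) (y : Fin k → ZMod 3) * mon (γ p) (z : Fin k → ZMod 3))) =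
        (Matrix.diagonal d : Matrix B B (ZMod 3)) x y := by
      by_cases hxy : x = y
      · subst hxy
        rw [Matrix.diagonal_apply_eq]
        rw [Finset.sum_eq_single x]
        · intro z _ hz
          rw [h0 x x.2 x x.2 z z.2 (fun h => hz (Subtype.ext h.2.symm)), mul_zero]
        · intro h; exact absurd (Finset.mem_univ _) h
      · rw [Matrix.diagonal_apply_ne _ hxy]
        apply Finset.sum_eq_zero
        intro z _
        rw [h0 x x.2 y y.2 z z.2 (fun h => hxy (Subtype.ext h.1)), mul_zero]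
    rw [← h1]
    simp only [c']
    simp_rw [Finset.mul_sum, Finset.sum_mul]
    rw [Finset.sum_comm]
    refine Finset.sum_congr rfl fun p _ => Finset.sum_congr rfl fun z _ => ?_
    ring
  -- factorization
  let P : Matrix B (Lw ⊕ Lw) (ZMod 3) := fun x s =>
    match s with
    | Sum.inl a => mon a.1 (x : Fin k → ZMod 3)
    | Sum.inr b => ∑ p ∈ univ.filter (fun p => ¬ lo1 p ∧ β p = b.1),
        c' p * mon (α p) (x : Fin k → ZMod 3)
  let Q : Matrix (Lw ⊕ Lw) B (ZMod 3) := fun s y =>
    match s with
    | Sum.inl a => ∑ p ∈ univ.filter (fun p => α p = a.1),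
        c' p * mon (β p) (y : Fin k → ZMod 3)
    | Sum.inr b => mon b.1 (y : Fin k → ZMod 3)
  have hfac : (Matrix.diagonal d : Matrix B B (ZMod 3)) = P * Q := by
    ext x y
    rw [hdiag, Matrix.mul_apply, Fintype.sum_sum_type]
    simp only [P, Q]
    have e1 : ∑ a : Lw, mon a.1 (x : Fin k → ZMod 3) *
        ∑ p ∈ univ.filter (fun p : ι => α p = a.1), c' p * mon (β p) (y : Fin k → ZMod 3) =
        ∑ p ∈ univ.filter (fun p => lo1 p), c' p * (mon (α p) (x : Fin k → ZMod 3) *
          mon (β p) (y : Fin k → ZMod 3)) := by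
      simp_rw [Finset.mul_sum]
      rw [← Finset.sum_fiberwise_of_maps_to (s := univ.filter (fun p => lo1 p))
        (t := (univ : Finset (Fin k → Fin 3)).filter (fun a => 3 * tdeg a ≤ N))
        (g := α)]
      · rw [Finset.sum_subtype (p := fun a : Fin k → Fin 3 => 3 * tdeg a ≤ N)
          (univ.filter (fun a : Fin k → Fin 3 => 3 * tdeg a ≤ N)) (by intro a; simp)]
        refine Finset.sum_congr rfl fun a _ => ?_
        have : (univ.filter (fun p => lo1 p)).filter (fun p => α p = a.1) =
            univ.filter (fun p : ι => α p = a.1) := by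
          ext p
          simp only [Finset.mem_filter, Finset.mem_univ, true_and, lo1]
          constructor
          · rintro ⟨_, h⟩; exact h
          · intro h; exact ⟨by rw [h]; exact a.2, h⟩
        rw [this]
        refine Finset.sum_congr rfl fun p hp => ?_
        have hp' : α p = a.1 := by simpa using hp
        rw [hp']
        ring
      · intro p hp
        have : lo1 p := by simpa using hp
        simpa using this
    have e2 : ∑ b : Lw, (∑ p ∈ univ.filter (fun p : ι => ¬ lo1 p ∧ β p = b.1),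
          c' p * mon (α p) (x : Fin k → ZMod 3)) * mon b.1 (y : Fin k → ZMod 3) =
        ∑ p ∈ univ.filter (fun p => ¬ lo1 p ∧ lo2 p),
          c' p * (mon (α p) (x : Fin k → ZMod 3) * mon (β p) (y : Fin k → ZMod 3)) := by
      simp_rw [Finset.sum_mul]
      rw [← Finset.sum_fiberwise_of_maps_to (s := univ.filter (fun p => ¬ lo1 p ∧ lo2 p))
        (t := (univ : Finset (Fin k → Fin 3)).filter (fun a => 3 * tdeg a ≤ N))
        (g := β)]
      · rw [Finset.sum_subtype (p := fun a : Fin k → Fin 3 => 3 * tdeg a ≤ N)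
          (univ.filter (fun a : Fin k → Fin 3 => 3 * tdeg a ≤ N)) (by intro a; simp)]
        refine Finset.sum_congr rfl fun b _ => ?_
        have : (univ.filter (fun p => ¬ lo1 p ∧ lo2 p)).filter (fun p => β p = b.1) =
            univ.filter (fun p : ι => ¬ lo1 p ∧ β p = b.1) := by
          ext p
          simp only [Finset.mem_filter, Finset.mem_univ, true_and]
          constructor
          · rintro ⟨⟨h1, _⟩, h⟩; exact ⟨h1, h⟩
          · rintro ⟨h1, h⟩
            refine ⟨⟨h1, ?_⟩, h⟩
            simp only [lo2]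
            rw [h]; exact b.2
        rw [this]
        refine Finset.sum_congr rfl fun p hp => ?_
        have hp' : β p = b.1 := (Finset.mem_filter.1 hp).2.2
        rw [hp']
        ring
      · intro p hp
        have : lo2 p := (Finset.mem_filter.1 hp).2.2
        simpa using this
    rw [e1, e2]
    rw [← Finset.sum_filter_add_sum_filter_not univ (fun p => lo1 p)]
    congr 1
    rw [← Finset.sum_filter_add_sum_filter_not (univ.filter (fun p => ¬ lo1 p)) (fun p => lo2 p)]
    rw [Finset.filter_filter, Finset.filter_filter]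
    rw [show ∑ p ∈ univ.filter (fun p => ¬ lo1 p ∧ ¬ lo2 p),
      c' p * (mon (α p) (x : Fin k → ZMod 3) * mon (β p) (y : Fin k → ZMod 3)) = 0 from ?_, add_zero]
    apply Finset.sum_eq_zero
    intro p hp
    have hp' := (Finset.mem_filter.1 hp).2
    rw [hc0 p hp'.1 hp'.2, zero_mul]
  have hrank : (univ.filter (fun i => u i ≠ 0)).card ≤ 2 * Fintype.card Lw := by
    have h1 : (Matrix.diagonal d : Matrix B B (ZMod 3)).rank =
        Fintype.card {i // d i ≠ 0} := Matrix.rank_diagonal d
    have h2 : (P * Q).rank ≤ P.rank := Matrix.rank_mul_le_left P Q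
    have h3 : P.rank ≤ Fintype.card (Lw ⊕ Lw) := by
      exact Matrix.rank_le_card_width P
    rw [← hfac, h1] at h2
    rw [Fintype.card_subtype] at h2
    rw [Fintype.card_sum] at h3
    have h4 : (univ.filter (fun i => d i ≠ 0)) = univ.filter (fun i => u i ≠ 0) := by
      ext i
      simp only [Finset.mem_filter, Finset.mem_univ, true_and]
      exact hd i
    rw [h4] at h2
    omega
  have hcardB : Fintype.card B = B.card := by simp
  rw [hcardB] at hdim
  omega

end Pool.PF36.S82
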