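import Pool.Agent.H18VS.CapSet
import Pool.Agent.PF36.SliceS82

set_option autoImplicit false

/-!
# PF36/Slice: the slice rank bound for a diagonal tensor given by monomials

PROOF. As `capset_core` in `Pool/Agent/H18VS/CapSet.lean`, with `Low` = exponents with `3 * tdeg a ≤ N` and the
index set `ι` in place of `Fin (3l) → Fin 3 × Fin 3 × Fin 3`: `u` orthogonal to the low monomials with large
support; contraction over `z` gives a diagonal matrix (entries `u x * T x x x`) which factors through the low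
monomials of `x` and of `y`.
-/

namespace Pool.PF36

open Finset Pool.Agent.H18VS

theorem slice {k N : ℕ} {ι : Type} [Fintype ι] (c : ι → ZMod 3) (α β γ : ι → Fin k → Fin 3)
    (hdeg : ∀ p, c p ≠ 0 → tdeg (α p) + tdeg (β p) + tdeg (γ p) ≤ N)
    (B : Finset (Fin k → ZMod 3))
    (h0 : ∀ x ∈ B, ∀ y ∈ B, ∀ z ∈ B, ¬ (x = y ∧ y = z) →
      ∑ p, c p * (mon (α p) x * mon (β p) y * mon (γ p) z) = 0)
    (h1 : ∀ x ∈ B, ∑ p, c p * (mon (α p) x * mon (β p) x * mon (γ p) x) ≠ 0) :
    B.card ≤ 3 * (univ.filter fun a : Fin k → Fin 3 => 3 * tdeg a ≤ N).card := by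
  exact S82.slice c α β γ hdeg B h0 h1

end Pool.PF36
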